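import Pool.Agent.Helper53.SL.St2

/-!
# MP_9062f4_nt, project SM: module HER, the function `exp (-Herglotz integral)`
-/

set_option autoImplicit false

namespace Pool.Agent.Helper92.SLM

open Pool.Agent.Helper53.SL MeasureTheory Set
open Pool.Agent.Helper96.Salem (PK PK_pos PK_continuous circle_norm circle_ne)

/-- the Herglotz kernel on the unit circle -/
noncomputable def ker (w : ℂ) (t : ℝ) : ℂ := (circleMap 0 1 t + w) / (circleMap 0 1 t - w)

theorem ker_re (w : ℂ) (t : ℝ) : (ker w t).re = PK w (circleMap 0 1 t) := by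
  unfold ker PK
  rw [herglotzRieszKernel_def]
  simp

theorem ker_cont {w : ℂ} (hw : ‖w‖ < 1) : Continuous (ker w) := by
  unfold ker
  have hne : ∀ t : ℝ, circleMap 0 1 t - w ≠ 0 := circle_ne hw
  fun_prop (disch := exact hne _)

noncomputable def ker' (w : ℂ) (t : ℝ) : ℂ := 2 * circleMap 0 1 t / (circleMap 0 1 t - w) ^ 2

theorem ker'_cont {w : ℂ} (hw : ‖w‖ < 1) : Continuous (ker' w) := by
  unfold ker'
  have hne : ∀ t : ℝ, (circleMap 0 1 t - w) ^ 2 ≠ 0 := fun t => pow_ne_zero 2 (circle_ne hw t)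
  fun_prop (disch := exact hne _)

theorem ker_deriv {w : ℂ} (hw : ‖w‖ < 1) (t : ℝ) : HasDerivAt (fun w => ker w t) (ker' w t) w := by
  have hne := circle_ne hw t
  have h1 : HasDerivAt (fun w : ℂ => circleMap 0 1 t + w) 1 w := by
    simpa using (hasDerivAt_id w).const_add (circleMap 0 1 t)
  have h2 : HasDerivAt (fun w : ℂ => circleMap 0 1 t - w) (-1) w := by
    simpa using (hasDerivAt_id w).const_sub (circleMap 0 1 t)
  have h3 := h1.div h2 hne
  have e : (1 * (circleMap 0 1 t - w) - (circleMap 0 1 t + w) * -1) / (circleMap 0 1 t - w) ^ 2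
      = ker' w t := by
    unfold ker'
    congr 1
    ring
  rw [e] at h3
  exact h3

theorem ker'_bound {w : ℂ} {ε : ℝ} (hε : 0 < ε) (hw : ‖w‖ ≤ 1 - ε) (t : ℝ) : ‖ker' w t‖ ≤ 2 / ε ^ 2 := by
  unfold ker'
  have h1 : ε ≤ ‖circleMap 0 1 t - w‖ := by
    have := norm_sub_norm_le (circleMap 0 1 t) w
    rw [circle_norm] at this
    linarith
  rw [norm_div, norm_mul, norm_pow, circle_norm, Complex.norm_ofNat, mul_one]
  exact div_le_div_of_nonneg_left (by norm_num) (by positivity) (pow_le_pow_left₀ hε.le h1 2)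

theorem hHer : StHer := by
  intro φ hφ hint
  have hpi : (0 : ℝ) ≤ 2 * Real.pi := by positivity
  have hintC : IntervalIntegrable (fun t => (φ t : ℂ)) volume 0 (2 * Real.pi) :=
    ⟨Integrable.ofReal hint.1, Integrable.ofReal hint.2⟩
  set L : ℂ → ℂ := fun w => ((2 * Real.pi)⁻¹ : ℝ) * ∫ t in (0 : ℝ)..2 * Real.pi, ker w t * (φ t : ℂ) with hL
  have hF : ∀ w : ℂ, ‖w‖ < 1 →
      IntervalIntegrable (fun t => ker w t * (φ t : ℂ)) volume 0 (2 * Real.pi) := fun w hw =>
    hintC.continuousOn_mul (ker_cont hw).continuousOn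
  have hF' : ∀ w : ℂ, ‖w‖ < 1 →
      IntervalIntegrable (fun t => ker' w t * (φ t : ℂ)) volume 0 (2 * Real.pi) := fun w hw =>
    hintC.continuousOn_mul (ker'_cont hw).continuousOn
  have hdiff : DifferentiableOn ℂ L (Metric.ball 0 1) := by
    intro w hw
    rw [mem_ball_zero_iff] at hw
    apply DifferentiableAt.differentiableWithinAt
    set ε : ℝ := (1 - ‖w‖) / 2 with hε
    have hε0 : 0 < ε := by rw [hε]; linarith
    have hb : ∀ x ∈ Metric.ball w ε, ‖x‖ ≤ 1 - ε := by
      intro x hx
      rw [mem_ball_iff_norm] at hx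
      have := norm_sub_norm_le x w
      rw [hε] at hx ⊢
      linarith
    have hb1 : ∀ x ∈ Metric.ball w ε, ‖x‖ < 1 := fun x hx => lt_of_le_of_lt (hb x hx) (by linarith)
    have key := intervalIntegral.hasDerivAt_integral_of_dominated_loc_of_deriv_le
      (F := fun w t => ker w t * (φ t : ℂ)) (F' := fun w t => ker' w t * (φ t : ℂ)) (x₀ := w)
      (s := Metric.ball w ε) (a := 0) (b := 2 * Real.pi) (μ := volume) (bound := fun t => 2 / ε ^ 2 * φ t)
      (Metric.ball_mem_nhds w hε0)
      (by
        filter_upwards [Metric.ball_mem_nhds w hε0] with x hx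
        exact (IntervalIntegrable.def' (hF x (hb1 x hx))).aestronglyMeasurable)
      (hF w hw)
      (IntervalIntegrable.def' (hF' w hw)).aestronglyMeasurable
      (Filter.Eventually.of_forall fun t _ x hx => by
        rw [norm_mul, Complex.norm_real, Real.norm_eq_abs, abs_of_nonneg (hφ t)]
        exact mul_le_mul_of_nonneg_right (ker'_bound hε0 (hb x hx) t) (hφ t))
      (hint.const_mul _)
      (Filter.Eventually.of_forall fun t _ x hx => (ker_deriv (hb1 x hx) t).mul_const _)
    exact (key.2.differentiableAt).const_mul _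
  have hre : ∀ w : ℂ, ‖w‖ < 1 →
      (L w).re = (2 * Real.pi)⁻¹ * ∫ t in (0 : ℝ)..2 * Real.pi, PK w (circleMap 0 1 t) * φ t := by
    intro w hw
    rw [hL]
    simp only
    rw [Complex.re_ofReal_mul]
    congr 1
    have h1 := Complex.reCLM.intervalIntegral_comp_comm (hF w hw)
    simp only [Complex.reCLM_apply] at h1
    rw [← h1]
    refine intervalIntegral.integral_congr fun t _ => ?_
    show (ker w t * (φ t : ℂ)).re = _
    rw [Complex.re_mul_ofReal, ker_re]
  have hnn : ∀ w : ℂ, ‖w‖ < 1 → 0 ≤ (L w).re := by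
    intro w hw
    rw [hre w hw]
    apply mul_nonneg (by positivity)
    exact intervalIntegral.integral_nonneg hpi fun t _ => mul_nonneg (PK_pos hw t).le (hφ t)
  set E : ℂ → ℂ := fun w => Complex.exp (-L w) with hE
  have hEd : DifferentiableOn ℂ E (Metric.ball 0 1) := hdiff.neg.cexp
  refine ⟨E, fun n => (n.factorial : ℂ)⁻¹ * iteratedDeriv n E 0, ?_, ?_, ?_⟩
  · intro z hz
    have h := Complex.hasSum_taylorSeries_on_ball (c := 0) (r := 1) (z := z) hEd
      (by rw [mem_ball_zero_iff]; exact hz)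
    refine h.congr_fun ?_ |> id
    intro n
    simp only [smul_eq_mul, sub_zero]
    ring
  · intro z hz
    refine ⟨Complex.exp_ne_zero _, ?_, ?_⟩
    · rw [hE]
      simp only
      rw [Complex.norm_exp, Complex.neg_re]
      have := hnn z hz
      rw [← Real.exp_zero]
      exact Real.exp_le_exp.2 (by linarith)
    · rw [hE]
      simp only
      rw [Complex.norm_exp, Real.log_exp, Complex.neg_re, hre z hz]
  · simp only [Nat.factorial_zero, Nat.cast_one, inv_one, one_mul, iteratedDeriv_zero]
    rw [hE]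
    simp only
    rw [Complex.ofReal_exp]
    congr 1
    rw [Complex.ofReal_neg]
    congr 1
    rw [hL]
    simp only
    rw [Complex.ofReal_mul, ← intervalIntegral.integral_ofReal]
    congr 1
    refine intervalIntegral.integral_congr fun t _ => ?_
    show ker 0 t * (φ t : ℂ) = (φ t : ℂ)
    unfold ker
    have hne := circle_ne (w := 0) (by simp) t
    rw [sub_zero] at hne
    rw [add_zero, sub_zero, div_self hne, one_mul]

end Pool.Agent.Helper92.SLM
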